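import Pool.Agent.H55.CU.Targets

/-!
# Row FSA (board cou_modules)
-/

set_option autoImplicit false

open MeasureTheory ProbabilityTheory Filter Topology
open Pool.Agent.H95 Pool.Agent.H95.Cop Pool.Agent.H96.Cop Pool.Agent.H55.CU
open scoped ENNReal

namespace Pool.Agent.H23.CU

theorem pf_FSA (hSPL : T_SPL) (hBKP : T_BKP) (hTHP : T_THP) (hAEX : T_AEX) : T_FSA := by
  intro K ν _ α c k S hα0 hα hc hk hS hH n
  have h2S : (0 : ℝ) < 2 ^ S := by positivity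
  have hα4 : α ≤ 1 / 4 := hα.trans (by norm_num)
  obtain ⟨hθ1, hθ2, _, hθ3, hθ4⟩ := hTHP α S hα0 hα4
  obtain ⟨θ, hθ⟩ : ∃ θ : ℝ, θ = th α S := ⟨_, rfl⟩
  rw [← hθ] at hθ1 hθ2 hθ3 hθ4
  obtain ⟨_, hA1, hA2, _, _, _⟩ := hAEX α θ hα0 hα hθ2 hθ4
  have hcc : 0 ≤ cc α := by
    unfold cc
    positivity
  have hZ0 : 0 ≤ ZZ α c k := by
    unfold ZZ
    positivity
  obtain ⟨t, ht⟩ : ∃ t : ℕ → ℝ, t = fun a => (dd (cc α) S a * nn α a) ^ θ := ⟨_, rfl⟩
  have hnn0 : ∀ a, 0 ≤ nn α a := by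
    intro a
    unfold nn
    split_ifs <;> positivity
  have hdd0 : ∀ a, 0 ≤ dd (cc α) S a := by
    intro a
    rcases Nat.eq_zero_or_pos a with h | h
    · unfold dd
      rw [if_pos h]
      norm_num
    · exact le_trans (by norm_num) (hBKP (cc α) S a hcc h).2.1
  have ht0 : ∀ a, 0 ≤ t a := by
    intro a
    rw [ht]
    exact Real.rpow_nonneg (mul_nonneg (hdd0 a) (hnn0 a)) _
  have hta0 : t 0 ≤ 9 * α := by
    rw [ht]
    have e1 : dd (cc α) S 0 = 6 := by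
      unfold dd
      rw [if_pos rfl]
    have e2 : nn α 0 = α := by
      unfold nn
      rw [if_pos rfl]
    simp only [e1, e2]
    exact hA2
  obtain ⟨ε, hε⟩ : ∃ ε : ℝ, ε = α / 2 ^ S := ⟨_, rfl⟩
  have hε0 : 0 < ε := by
    rw [hε]
    positivity
  have hta : ∀ a, 1 ≤ a → t a ≤ 2 ^ 24 * α ^ 2 * (1 + (a : ℝ)) ^ (-(1 + ε)) := by
    intro a ha
    obtain ⟨_, h1, h2, _⟩ := hBKP (cc α) S a hcc ha
    have h3 : dd (cc α) S a ≤ 2 ^ 23 := by
      refine h2.trans ?_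
      have e1 : 4 * cc α * 2 ^ S = 4320 * 2 ^ 46 * (α * 2 ^ S) := by
        unfold cc
        ring
      rw [e1]
      have e2 : 4320 * (2 : ℝ) ^ 46 * (α * 2 ^ S) ≤ 4320 * 2 ^ 46 * (1 / 2 ^ 37) :=
        mul_le_mul_of_nonneg_left hS (by norm_num)
      norm_num at e2 ⊢
      linarith
    have ha0 : (0 : ℝ) < 1 + (a : ℝ) := by positivity
    have e1 : nn α a = α ^ 2 * (1 + (a : ℝ)) ^ (-(1 + α)) := by
      unfold nn
      rw [if_neg (by omega)]
    have e2 : t a = dd (cc α) S a ^ θ * (α ^ (2 * θ) * (1 + (a : ℝ)) ^ (-(1 + ε))) := by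
      rw [ht]
      simp only
      rw [e1, Real.mul_rpow (hdd0 a) (by positivity), Real.mul_rpow (by positivity)
        (Real.rpow_nonneg ha0.le _)]
      congr 2
      · rw [← Real.rpow_natCast, ← Real.rpow_mul hα0.le]
        norm_num
      · rw [← Real.rpow_mul ha0.le]
        congr 1
        rw [hε, ← hθ3]
        ring
    rw [e2]
    have h4 : dd (cc α) S a ^ θ ≤ 2 ^ 23 := by
      refine le_trans ?_ h3
      calc dd (cc α) S a ^ θ ≤ dd (cc α) S a ^ (1 : ℝ) :=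
            Real.rpow_le_rpow_of_exponent_le (le_trans (by norm_num) h1) hθ2
        _ = dd (cc α) S a := Real.rpow_one _
    have h5 : 0 ≤ (1 + (a : ℝ)) ^ (-(1 + ε)) := Real.rpow_nonneg ha0.le _
    calc dd (cc α) S a ^ θ * (α ^ (2 * θ) * (1 + (a : ℝ)) ^ (-(1 + ε)))
        ≤ 2 ^ 23 * (2 * α ^ 2 * (1 + (a : ℝ)) ^ (-(1 + ε))) := by
          refine mul_le_mul h4 (mul_le_mul_of_nonneg_right hA1 h5) ?_ (by norm_num)
          exact mul_nonneg (Real.rpow_nonneg hα0.le _) h5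
      _ = 2 ^ 24 * α ^ 2 * (1 + (a : ℝ)) ^ (-(1 + ε)) := by ring
  have hsum : ∑ a ∈ Finset.range n, t a ≤ 1 / 4 := by
    rcases Nat.eq_zero_or_pos n with h | h
    · rw [h]
      norm_num
    rw [Finset.range_eq_Ico, Finset.sum_eq_sum_Ico_succ_bot h]
    have h1 : ∑ a ∈ Finset.Ico (0 + 1) n, t a ≤ 2 ^ 24 * α ^ 2 * (1 / ε) := by
      calc ∑ a ∈ Finset.Ico (0 + 1) n, t a
          ≤ ∑ a ∈ Finset.Ico (0 + 1) n, 2 ^ 24 * α ^ 2 * (1 + (a : ℝ)) ^ (-(1 + ε)) := by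
            apply Finset.sum_le_sum
            intro a ha
            rw [Finset.mem_Ico] at ha
            exact hta a (by omega)
        _ = 2 ^ 24 * α ^ 2 * ∑ a ∈ Finset.Ico 1 n, (1 + (a : ℝ)) ^ (-(1 + ε)) := by
            rw [Finset.mul_sum]
        _ ≤ _ := mul_le_mul_of_nonneg_left (hSPL ε hε0 n).1 (by positivity)
    have h2 : 2 ^ 24 * α ^ 2 * (1 / ε) = 2 ^ 24 * (α * 2 ^ S) := by
      rw [hε]
      field_simp
    rw [h2] at h1
    have h3 : 2 ^ 24 * (α * 2 ^ S) ≤ 2 ^ 24 * (1 / 2 ^ 37) :=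
      mul_le_mul_of_nonneg_left hS (by norm_num)
    have h4 : 9 * α ≤ 9 * (1 / 2 ^ 50) := mul_le_mul_of_nonneg_left hα (by norm_num)
    norm_num at h3 h4
    linarith
  calc ∑ a ∈ Finset.range n, ∫⁻ x, PL K k (k * 2 ^ S) a x ^ th α S ∂(iid ν)
      ≤ ∑ a ∈ Finset.range n, ENNReal.ofReal (ZZ α c k ^ θ * t a) := by
        apply Finset.sum_le_sum
        intro a _
        refine (hH a).trans ?_
        rw [← hθ, Real.mul_rpow hZ0 (mul_nonneg (hdd0 a) (hnn0 a)), ht]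
    _ = ENNReal.ofReal (∑ a ∈ Finset.range n, ZZ α c k ^ θ * t a) := by
        rw [ENNReal.ofReal_sum_of_nonneg]
        intro a _
        exact mul_nonneg (Real.rpow_nonneg hZ0 _) (ht0 a)
    _ ≤ ENNReal.ofReal (ZZ α c k ^ th α S / 4) := by
        apply ENNReal.ofReal_le_ofReal
        rw [← Finset.mul_sum, ← hθ]
        have h1 := mul_le_mul_of_nonneg_left hsum (Real.rpow_nonneg hZ0 θ)
        linarith

end Pool.Agent.H23.CU
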